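import Pool.Agent.Lib.MP_6bc78b_nt.MS.P3.Iface

/-! Project MS, Part III, module ZR (helper23): `(s - 1) ζ(s)` is entire. -/

set_option autoImplicit false

open Complex Filter Topology ArithmeticFunction

namespace Pool.Agent.Lib.MP_6bc78b_nt.MS.P3.H23

open Pool.Agent.Lib.MP_6bc78b_nt.MS.P3

lemma zr_eq : zr = Function.update (fun s : ℂ => (s - 1) * riemannZeta s) 1 1 := rfl

lemma zr_one : zr 1 = 1 := by
  rw [zr_eq, Function.update_self]

lemma zr_ne {s : ℂ} (hs : s ≠ 1) : zr s = (s - 1) * riemannZeta s := by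
  rw [zr_eq, Function.update_of_ne hs]

lemma zr_cont : ContinuousAt zr 1 := by
  rw [zr_eq, continuousAt_update_same]
  exact riemannZeta_residue_one

lemma zr_diffAt {s : ℂ} (hs : s ≠ 1) : DifferentiableAt ℂ zr s := by
  have h1 : DifferentiableAt ℂ (fun s : ℂ => (s - 1) * riemannZeta s) s :=
    (differentiableAt_id.sub_const 1).mul (differentiableAt_riemannZeta hs)
  refine h1.congr_of_eventuallyEq ?_
  filter_upwards [isOpen_ne.mem_nhds hs] with z hz
  exact zr_ne hz

lemma zr_diff : Differentiable ℂ zr := by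
  intro s
  by_cases hs : s = 1
  · rw [hs]
    refine (analyticAt_of_differentiable_on_punctured_nhds_of_continuousAt ?_ zr_cont).differentiableAt
    filter_upwards [self_mem_nhdsWithin] with z hz
    exact zr_diffAt hz
  · exact zr_diffAt hs

lemma zeta_eq {s : ℂ} (hs : s ≠ 1) : riemannZeta s = zr s / (s - 1) := by
  rw [zr_ne hs]
  have : s - 1 ≠ 0 := sub_ne_zero.2 hs
  field_simp

lemma zeta_ne_zero (hRH : RiemannHypothesis) {s : ℂ} (hs : 1 / 2 < s.re) : riemannZeta s ≠ 0 := by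
  intro h0
  have h1 : ¬∃ n : ℕ, s = -2 * (n + 1) := by
    rintro ⟨n, hn⟩
    rw [hn] at hs
    have : ((-2 : ℂ) * ((n : ℂ) + 1)).re = -2 * ((n : ℝ) + 1) := by simp
    rw [this] at hs
    have h2 : (0 : ℝ) ≤ n := Nat.cast_nonneg n
    linarith
  have h2 : s ≠ 1 := by
    intro h; rw [h] at h0; exact riemannZeta_one_ne_zero h0
  have := hRH s h0 h1 h2
  linarith

/-- ZR. -/
theorem zr : ZrStatement := by
  refine ⟨zr_diff, zr_one, fun s hs => zeta_eq hs, ?_, ?_, ?_⟩
  · intro s hs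
    have h1 : s - 1 ≠ 0 := sub_ne_zero.2 hs
    unfold iz
    rw [zr_ne hs]
    field_simp
  · intro hRH s hs
    by_cases h : s = 1
    · rw [h, zr_one]; exact one_ne_zero
    · rw [zr_ne h]
      exact mul_ne_zero (sub_ne_zero.2 h) (zeta_ne_zero hRH hs)
  · intro x hx
    have hinv : Tendsto (fun L : ℝ => (1 : ℂ) + x / (L : ℂ)) atTop (𝓝 1) := by
      have h1 : Tendsto (fun L : ℝ => ((L⁻¹ : ℝ) : ℂ)) atTop (𝓝 ((0 : ℝ) : ℂ)) :=
        (Complex.continuous_ofReal.tendsto 0).comp tendsto_inv_atTop_zero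
      have h2 := (h1.const_mul x).const_add (1 : ℂ)
      simp only [ofReal_zero, mul_zero, add_zero] at h2
      refine h2.congr fun L => ?_
      push_cast
      rw [div_eq_mul_inv]
    have h3 : Tendsto (fun L : ℝ => P3.zr (1 + x / (L : ℂ)) / x) atTop (𝓝 (1 / x)) := by
      have h4 : Tendsto P3.zr (𝓝 1) (𝓝 (P3.zr 1)) := (zr_diff 1).continuousAt
      rw [zr_one] at h4
      exact (h4.comp hinv).div_const x
    refine h3.congr' ?_
    filter_upwards [eventually_gt_atTop (0 : ℝ)] with L hL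
    have hL' : (L : ℂ) ≠ 0 := by exact_mod_cast hL.ne'
    have hne : (1 : ℂ) + x / (L : ℂ) ≠ 1 := by
      intro h
      have h5 : x / (L : ℂ) = 0 := by linear_combination h
      exact (div_ne_zero hx hL') h5
    rw [zeta_eq hne]
    have h6 : (1 : ℂ) + x / (L : ℂ) - 1 = x / (L : ℂ) := by ring
    rw [h6]
    field_simp

end Pool.Agent.Lib.MP_6bc78b_nt.MS.P3.H23
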